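import Pool.Agent.Q267.CDE.Half2
import Pool.Agent.Q267.CDE.Quad
import Pool.Agent.Q267.CDE.Gauss4
import Pool.Agent.Q267.CDE.Quart2
import Pool.Agent.Q267.CDE.UU

/-!
# MP_fdcced_nt

Supercongruences for the squares of `C(-1/4, k)` with weights `(-8)^k` and `(-8)^(-k)`: Q1 and Q2.
-/

namespace Pool.Agent.Results.MP_fdcced_nt.Full

open Finset

/-- `r ≡ s (mod p^2)`: `p^2` divides the numerator of `r - s` written in lowest terms. -/
def Cong (p : ℕ) (r s : ℚ) : Prop := (p : ℤ) ^ 2 ∣ (r - s).num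

/-- The generalized binomial coefficient `C(a, k)`. -/
def gb (a : ℚ) (k : ℕ) : ℚ := (∏ j ∈ range k, (a - j)) / k.factorial

open Pool.Agent.Q267 Pool.Agent.Q267.CDE Pool.Agent.Q267.Seven Q278.PI

theorem cong_of {p : ℕ} [hp : Fact p.Prime] {r s : ℚ} (a b : O p) (ha : (a : ℚ) = r)
    (hb : (b : ℚ) = s) (h : res2 p a = res2 p b) : Cong p r s := by
  subst ha hb
  exact cong_of_res2 p a b h

section

variable (p : ℕ) [hp : Fact p.Prime] (n : ℕ) (hn : p = 4 * n + 1)

include hn

theorem n_pos : 0 < n := by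
  have := hp.out.two_le
  omega

theorem two_pow_nd (a : ℕ) : ¬ (p : ℤ) ∣ ((2 ^ a : ℕ) : ℤ) := by
  have h := n_pos p n hn
  exact two_pow_not_dvd p (m := 2 * n) (by omega) (by omega) a

theorem nd2 : ¬ (p : ℤ) ∣ 2 := two_pow_nd p n hn 1

theorem nd4 : ¬ (p : ℤ) ∣ 4 := two_pow_nd p n hn 2

theorem nd8 : ¬ (p : ℤ) ∣ -8 := by
  rw [dvd_neg]
  exact two_pow_nd p n hn 3

omit hn in
theorem ndf (k : ℕ) (hk : k < p) : ¬ (p : ℤ) ∣ ((k.factorial : ℕ) : ℤ) := by
  intro h
  have h1 := Int.natCast_dvd_natCast.1 h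
  have := (hp.out.dvd_factorial).1 h1
  omega

/-- `C(-1/4,k)` in `ℤ_(p)` -/
noncomputable def gO (p : ℕ) [Fact p.Prime] (k : ℕ) : O p :=
  (∏ j ∈ range k, (-(invI p 4) - (j : O p))) * invI p ((k.factorial : ℕ) : ℤ)

/-- `c_k` in `ℤ_(p)` -/
noncomputable def cO (p n : ℕ) [Fact p.Prime] (k : ℕ) : O p :=
  (∏ j ∈ range k, (-(((n : O p) - (j : O p)) * ((n : O p) + (j : O p) + invI p 2)))) *
    (invI p ((k.factorial : ℕ) : ℤ)) ^ 2

theorem gO_coe (k : ℕ) (hk : k < p) : ((gO p k : O p) : ℚ) = gb (-1 / 4) k := by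
  unfold gO gb
  push_cast
  rw [invI_coe p 4 (nd4 p n hn), invI_coe p _ (ndf p k hk), div_eq_mul_inv]
  congr 1
  refine prod_congr rfl fun j _ => ?_
  norm_num

theorem cO_coe (k : ℕ) (hk : k < p) : ((cO p n k : O p) : ℚ) = cs ℚ n k := by
  unfold cO cs
  push_cast
  rw [invI_coe p 2 (nd2 p n hn), invI_coe p _ (ndf p k hk), div_eq_mul_inv, inv_pow]
  congr 1
  refine prod_congr rfl fun j _ => ?_
  norm_num

theorem g_eq_c (k : ℕ) (hk : k < p) : res2 p (gO p k) ^ 2 = res2 p (cO p n k) := by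
  unfold gO cO
  have h4 := res2_invI p 4 (nd4 p n hn)
  have h2 := res2_invI p 2 (nd2 p n hn)
  simp only [map_mul, map_prod, map_neg, map_sub, map_add, map_pow, map_natCast]
  set J4 := res2 p (invI p 4)
  set J2 := res2 p (invI p 2)
  push_cast at h4 h2
  have hJ : J2 = 2 * J4 := by
    have hu : IsUnit (2 : R p) := IsUnit.of_mul_eq_one _ h2
    apply hu.mul_left_cancel
    linear_combination h2 - h4
  have hP : (p : R p) = 4 * n + 1 := by
    have := congrArg (Nat.cast : ℕ → R p) hn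
    push_cast at this
    exact this
  rw [mul_pow, ← prod_pow]
  congr 1
  refine prod_congr rfl fun j _ => ?_
  have hpp := CDE.p_sq p
  rw [hJ]
  have e1 : -J4 = n - p * J4 := by
    rw [hP]
    linear_combination (n : R p) * h4
  have e2 : (n : R p) + 2 * J4 = -((n : R p) - 2 * (p * J4)) := by
    linear_combination -2 * e1
  rw [e1]
  linear_combination (J4 ^ 2) * hpp + ((n : R p) - j) * e2

/-- the sum with powers of `w` -/
theorem sum_res (w : O p) :
    ∃ a : O p, (a : ℚ) = ∑ k ∈ range p, gb (-1 / 4) k ^ 2 * (w : ℚ) ^ k ∧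
      ∃ b : O p, (b : ℚ) = ∑ k ∈ range p, cs ℚ n k * (w : ℚ) ^ k ∧ res2 p a = res2 p b := by
  refine ⟨∑ k ∈ range p, gO p k ^ 2 * w ^ k, ?_, ∑ k ∈ range p, cO p n k * w ^ k, ?_, ?_⟩
  · push_cast
    refine sum_congr rfl fun k hk => ?_
    rw [gO_coe p n hn k (mem_range.1 hk)]
  · push_cast
    refine sum_congr rfl fun k hk => ?_
    rw [cO_coe p n hn k (mem_range.1 hk)]
  · simp only [map_sum, map_mul, map_pow]
    refine sum_congr rfl fun k hk => ?_
    rw [g_eq_c p n hn k (mem_range.1 hk)]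

omit hp in
theorem cs_range (w : ℚ) : ∑ k ∈ range p, cs ℚ n k * w ^ k =
    ∑ k ∈ range (n + 1), cs ℚ n k * w ^ k := by
  rw [← sum_range_add_sum_Ico _ (show n + 1 ≤ p by omega)]
  have : ∑ k ∈ Ico (n + 1) p, cs ℚ n k * w ^ k = 0 := by
    refine sum_eq_zero fun k hk => ?_
    rw [mem_Ico] at hk
    rw [cs_zero_of n k (by omega), zero_mul]
  rw [this, add_zero]

omit hp in
/-- first exact identity -/
theorem exact1 : ∑ k ∈ range p, cs ℚ n k * (-8) ^ k = ((Fl (2 * n) (-1 : ℤ) : ℤ) : ℚ) := by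
  rw [cs_range p n hn]
  have h := quad (K := ℚ) n (-1)
  have e : (4 * (-1 * (1 - -1)) : ℚ) = -8 := by norm_num
  rw [e] at h
  rw [← h]
  unfold Fl
  push_cast
  rfl

omit hp in
/-- second exact identity -/
theorem exact2 : 2 ^ n * ∑ k ∈ range p, cs ℚ n k * ((-8 : ℚ)⁻¹) ^ k =
    ∑ k ∈ range (2 * n + 1), S16.u k * S16.u (2 * n - k) * 2 ^ k := by
  rw [cs_range p n hn]
  obtain ⟨a, ha⟩ : ∃ a : ℂ, a ^ 2 = 2 := IsAlgClosed.exists_pow_nat_eq 2 two_pos
  have h := trig_two n a (a / 2) ((1 - (a + a / 2) / 2) / 2) ha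
    (by linear_combination (1 / 2 : ℂ) * ha) (by ring)
  rw [quad] at h
  have e : 4 * ((1 - (a + a / 2) / 2) / 2 * (1 - (1 - (a + a / 2) / 2) / 2)) = (-8 : ℂ)⁻¹ := by
    linear_combination (-(9 / 16) : ℂ) * ha
  rw [e] at h
  apply Rat.cast_injective (α := ℂ)
  push_cast
  rw [← h]
  congr 1
  refine sum_congr rfl fun k _ => ?_
  unfold cs
  push_cast
  rfl

end

section

variable (p : ℕ) [hp : Fact p.Prime] (n : ℕ) (hn : p = 4 * n + 1)

include hn

/-- the main data in `ℤ/p²` -/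
theorem main_data (x y : ℤ) (hxy : (p : ℤ) = x ^ 2 + y ^ 2) (hx : x % 4 = 1) (X2 : R p)
    (hX : 2 * (x : R p) * X2 = 1) :
    ∃ I g : R p, I * I = -1 ∧ (x : ZMod p) * CDE.red p I = y ∧
      Fl (2 * n) (-1 : R p) = (-1) ^ n * (2 * (x : R p) - p * X2) ∧
      (x : R p) + y * I = p * X2 ∧
      (2 : R p) ^ (2 * n) * (1 - p * (2 * g)) = (-1) ^ n ∧
      (-1) ^ n * (((2 * n).choose n : ℕ) : R p) = Fl (2 * n) (-1 : R p) * (1 + p * (2 * g)) := by
  have hn0 := n_pos p n hn
  have h4 : (4 : ZMod p) ≠ 0 := by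
    have := cast_ne p 4 (by omega) (by omega)
    exact_mod_cast this
  obtain ⟨g, hg⟩ := exists_lift p (4⁻¹ * (H (ZMod p) (2 * n) - H (ZMod p) n))
  have hg2 : 2 * CDE.red p (2 * g) = H (ZMod p) (2 * n) - H (ZMod p) n := by
    rw [map_mul, map_ofNat, hg]
    have e9 : (4 : ZMod p) * 4⁻¹ = 1 := mul_inv_cancel₀ h4
    linear_combination (H (ZMod p) (2 * n) - H (ZMod p) n) * e9
  have hA := Fl_neg_one_mod p n hn (2 * g) hg2
  have hT := pow_two_mod p n hn (2 * g) hg2
  obtain ⟨I, hI, hxI, hV⟩ := gauss4 n hn x y hxy hx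
  obtain ⟨h, hh⟩ := exists_lift p (((2 * n : ℕ) : ZMod p) * H (ZMod p) (2 * n) -
    (((2 * n : ℕ) : ZMod p) - ((n : ℕ) : ZMod p)) * H (ZMod p) (2 * n - n)
      - ((n : ℕ) : ZMod p) * H (ZMod p) n)
  have hJ := jac p ⟨2 * n, by omega⟩ n (2 * n) (by omega) (by omega) (by omega) h hh
  have hpp := CDE.p_sq p
  have key : (p : R p) * h = p * (-(2 * g)) := by
    apply CDE.p_mul_eq
    rw [map_neg, hh, show 2 * n - n = n by omega]
    have h6 : (4 : ZMod p) * n = -1 := by
      have := congrArg (Nat.cast : ℕ → ZMod p) hn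
      push_cast at this
      rw [CharP.cast_eq_zero (ZMod p) p] at this
      linear_combination -this
    have h2 : (2 : ZMod p) ≠ 0 := by
      have := cast_ne p 2 (by omega) (by omega)
      exact_mod_cast this
    apply mul_left_cancel₀ h2
    push_cast
    rw [mul_neg, hg2]
    linear_combination (H (ZMod p) (2 * n) - H (ZMod p) n) * h6
  have hs : ((-1 : R p)) ^ n * (-1) ^ n = 1 := by rw [← mul_pow]; norm_num
  have hA2 : Fl (2 * n) (-1 : R p) = (-1) ^ n * ((x : R p) - y * I) := by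
    rw [hA]
    rw [hV] at hJ
    linear_combination hJ - ((-1) ^ n * (((2 * n).choose n : ℕ) : R p)) * key
  have hred : CDE.red p ((x : R p) + y * I) = 0 := by
    rw [map_add, map_mul, red_int, red_int]
    have hI' : CDE.red p I * CDE.red p I = -1 := by
      rw [← map_mul, hI, map_neg, map_one]
    linear_combination (-CDE.red p I) * hxI + (x : ZMod p) * hI'
  obtain ⟨z, hz⟩ := red_eq_of p ((x : R p) + y * I) 0 (by rw [hred, map_zero])
  rw [zero_add] at hz
  have hxy' := congrArg (Int.cast : ℤ → R p) hxy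
  push_cast at hxy'
  have hz2 : (p : R p) * z * (2 * x) = p := by
    linear_combination (-1 : R p) * hxy' + z ^ 2 * hpp - (x - y * I) * hz + p * z * hz
      - (y : R p) ^ 2 * hI
  have hpz : (p : R p) * z = p * X2 := by
    linear_combination X2 * hz2 - (p : R p) * z * hX
  refine ⟨I, g, hI, hxI, ?_, by rw [hz, hpz], hT, ?_⟩
  · rw [hA2]
    linear_combination (-(-1) ^ n) * hz - (-1) ^ n * hpz
  · rw [hA]
    linear_combination (4 * g ^ 2 * (-1) ^ n * (((2 * n).choose n : ℕ) : R p)) * hpp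

end

theorem all (p : ℕ) (hp' : p.Prime) (hp4 : p % 4 = 1) (x y : ℤ)
    (hxy : (p : ℤ) = x ^ 2 + y ^ 2) (hx : x % 4 = 1) :
    Cong p (∑ k ∈ range p, gb (-1 / 4) k ^ 2 * (-8) ^ k)
      ((-1) ^ ((p - 1) / 4) * (2 * (x : ℚ) - p / (2 * x))) ∧
    (p % 8 = 1 → Cong p (∑ k ∈ range p, gb (-1 / 4) k ^ 2 / (-8) ^ k)
      ((-1) ^ (y / 4) * (2 * (x : ℚ) - p / (2 * x)))) ∧
    (p % 8 = 5 → Cong p (∑ k ∈ range p, gb (-1 / 4) k ^ 2 / (-8) ^ k)
      ((-1) ^ ((y - 2) / 4) * (2 * (y : ℚ) - p / (2 * y)))) := by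
  have hp := Fact.mk hp'
  obtain ⟨n, hn⟩ : ∃ n, p = 4 * n + 1 := ⟨p / 4, by omega⟩
  have hn0 := n_pos p n hn
  have hx0 : x ≠ 0 := by omega
  have hnd : ∀ z : ℤ, z ≠ 0 → z ^ 2 ≤ (p : ℤ) → ¬ (p : ℤ) ∣ z := by
    intro z hz0 hzp h
    have h1 := Int.le_of_dvd (by positivity) ((dvd_abs _ _).2 h)
    have h2 : (p : ℤ) ^ 2 ≤ z ^ 2 := by
      rw [← sq_abs z]
      exact pow_le_pow_left₀ (by positivity) h1 2
    have h3 : (2 : ℤ) ≤ p := by exact_mod_cast hp'.two_le
    nlinarith
  have hxd : ¬ (p : ℤ) ∣ x := hnd x hx0 (by nlinarith [sq_nonneg y])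
  have hy0 : y ≠ 0 := by
    rintro rfl
    have h1 : ¬ (p : ℤ) ∣ x := hxd
    apply h1
    have h2 : (p : ℤ) ∣ x * x := ⟨1, by linarith [hxy]⟩
    rcases (Nat.prime_iff_prime_int.1 hp').dvd_or_dvd h2 with h | h <;> exact h
  have hyd : ¬ (p : ℤ) ∣ y := hnd y hy0 (by nlinarith [sq_nonneg x])
  have h2x : ¬ (p : ℤ) ∣ 2 * x := by
    intro h
    rcases (Nat.prime_iff_prime_int.1 hp').dvd_or_dvd h with h | h
    · exact nd2 p n hn h
    · exact hxd h
  have h2y : ¬ (p : ℤ) ∣ 2 * y := by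
    intro h
    rcases (Nat.prime_iff_prime_int.1 hp').dvd_or_dvd h with h | h
    · exact nd2 p n hn h
    · exact hyd h
  have hX := res2_invI p (2 * x) h2x
  have hY := res2_invI p (2 * y) h2y
  push_cast at hX hY
  set X2 := res2 p (invI p (2 * x)) with hX2
  set Y2 := res2 p (invI p (2 * y)) with hY2
  obtain ⟨I, g, hI, hxI, hA, hxyI, hT, hC⟩ := main_data p n hn x y hxy hx X2 hX
  have hpp := CDE.p_sq p
  have c2 : ((2 : O p) : ℚ) = 2 := rfl
  have c8 : ((8 : O p) : ℚ) = 8 := rfl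
  set A := Fl (2 * n) (-1 : R p) with hAdef
  refine ⟨?_, ?_⟩
  · -- Q1
    obtain ⟨a, ha, b, hb, hab⟩ := sum_res p n hn (-8 : O p)
    refine cong_of a ((-1) ^ ((p - 1) / 4) * (2 * (x : O p) - (p : O p) * invI p (2 * x))) ?_ ?_ ?_
    · rw [ha]
      push_cast
      rw [c8]
    · push_cast
      rw [c2, invI_coe p _ h2x]
      push_cast
      rw [div_eq_mul_inv]
    · rw [hab]
      have hbF : b = ((Fl (2 * n) (-1 : ℤ) : ℤ) : O p) := by
        apply Subtype.ext
        rw [hb]
        push_cast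
        rw [c8]
        have := exact1 p n hn
        rw [this]
      rw [hbF]
      simp only [map_mul, map_sub, map_pow, map_neg, map_one, map_natCast, map_intCast, map_ofNat]
      rw [← hX2, show (p - 1) / 4 = n by omega, ← hA, hAdef]
      unfold Fl
      push_cast
      rfl
  · -- Q2: common part
    have hJ8 := res2_invI p (-8) (nd8 p n hn)
    obtain ⟨a, ha, b, hb, hab⟩ := sum_res p n hn (invI p (-8))
    have ha' : (a : ℚ) = ∑ k ∈ range p, gb (-1 / 4) k ^ 2 / (-8) ^ k := by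
      rw [ha]
      refine sum_congr rfl fun k _ => ?_
      rw [invI_coe p (-8) (nd8 p n hn)]
      push_cast
      rw [inv_pow]
      exact (div_eq_mul_inv _ _).symm
    have hJ4 := res2_invI p 4 (nd4 p n hn)
    push_cast at hJ4
    set J := res2 p (invI p 4) with hJdef
    -- exact identity in `ℤ_(p)`
    have hbid : 2 ^ n * b = ∑ k ∈ range (2 * n + 1), ((k.centralBinom : O p) * (invI p 4) ^ k) *
        (((2 * n - k).centralBinom : O p) * (invI p 4) ^ (2 * n - k)) * 2 ^ k := by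
      apply Subtype.ext
      push_cast
      rw [hb, c2, invI_coe p (-8) (nd8 p n hn), invI_coe p 4 (nd4 p n hn)]
      have h5 := exact2 p n hn
      push_cast
      rw [h5]
      refine sum_congr rfl fun k _ => ?_
      unfold S16.u
      rw [div_eq_mul_inv, div_eq_mul_inv, ← inv_pow, ← inv_pow]
    have hb2 := congrArg (res2 p) hbid
    simp only [map_sum, map_mul, map_pow, map_natCast, map_ofNat] at hb2
    rw [← hJdef] at hb2
    set B := res2 p b with hB
    have hpm : p = 2 * (2 * n) + 1 := by omega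
    have huu := uu p hpm (by omega) J hJ4
    have hev : ((-1 : R p)) ^ (2 * n) = 1 := by rw [pow_mul]; norm_num
    have hs : 2 * (2 ^ n * B) = A + (-1) ^ n * (((2 * n).choose n : ℕ) : R p) := by
      have h5 : (∑ k ∈ range (2 * n + 1), (dl (2 * n) k : R p) * 2 ^ k) = A := by
        have h6 := congrArg (Int.cast : ℤ → R p) (Fl_refl (2 * n) (-1))
        rw [show (1 - -1 : ℤ) = 2 by norm_num, pow_mul, neg_one_sq, one_pow, one_mul] at h6
        unfold Fl at h6
        push_cast at h6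
        exact h6
      have h7 : (∑ k ∈ range (2 * n + 1), (dl (2 * n) (2 * n - k) : R p) * 2 ^ k) =
          (-1) ^ n * (((2 * n).choose n : ℕ) : R p) := by
        have h6 := congrArg (Int.cast : ℤ → R p) (Fl_half_int n)
        push_cast at h6
        rw [← h6, ← sum_range_reflect]
        refine sum_congr rfl fun k hk => ?_
        have hk' : k ≤ 2 * n := by simpa [Nat.lt_succ_iff] using hk
        rw [show 2 * n + 1 - 1 - k = 2 * n - k by omega, Nat.sub_sub_self hk']
      rw [hb2, ← h5, ← h7, mul_sum, ← sum_add_distrib]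
      refine sum_congr rfl fun k hk => ?_
      have hk' : k ≤ 2 * n := by simpa [Nat.lt_succ_iff] using hk
      have h8 := huu k hk'
      rw [hev, one_mul] at h8
      linear_combination (2 ^ k) * h8
    have h2u : IsUnit (2 : R p) := by
      have := isUnit_nat p 2 (by omega) (by omega)
      exact_mod_cast this
    have hB1 : 2 ^ n * B = A * (1 + p * g) := by
      apply h2u.mul_left_cancel
      linear_combination hs + hC
    set ζ : R p := 2 ^ n * (1 - p * g) with hζ
    have hζB : ζ * B = A := by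
      rw [hζ]
      linear_combination (1 - p * g) * hB1 - A * g ^ 2 * hpp
    have hζ2 : ζ ^ 2 = (-1) ^ n := by
      rw [hζ, ← hT, mul_pow, ← pow_mul, mul_comm n 2]
      linear_combination (2 : R p) ^ (2 * n) * g ^ 2 * hpp
    have hζr : CDE.red p ζ = 2 ^ n := by
      rw [hζ, map_mul, map_sub, map_mul, map_one, map_pow, map_ofNat, red_nat p p,
        CharP.cast_eq_zero (ZMod p) p, zero_mul, sub_zero, mul_one]
    have hp2 : p ≠ 2 := by omega
    have hf : CDE.red p I * CDE.red p I = -1 := by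
      rw [← map_mul, hI, map_neg, map_one]
    -- parity of `n`
    obtain ⟨s, hs'⟩ : ∃ s, x = 4 * s + 1 := ⟨x / 4, by omega⟩
    have hy2 : y % 2 = 0 := by
      have h1 : ((p : ℤ)) % 2 = 1 := by omega
      rw [hxy] at h1
      have h2 : x % 2 = 1 := by omega
      rcases Int.emod_two_eq_zero_or_one y with h | h
      · exact h
      · exfalso
        have e1 : x ^ 2 % 2 = 1 := by rw [pow_two, Int.mul_emod, h2]; norm_num
        have e2 : y ^ 2 % 2 = 1 := by rw [pow_two, Int.mul_emod, h]; norm_num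
        omega
    refine ⟨?_, ?_⟩
    · intro h8
      have hne : Even n := Nat.even_iff.2 (by omega)
      obtain ⟨t, ht⟩ : ∃ t, y = 4 * t := by
        have hcase : y % 4 = 0 ∨ y % 4 = 2 := by omega
        rcases hcase with h | h
        · exact ⟨y / 4, by omega⟩
        · exfalso
          obtain ⟨t, ht⟩ : ∃ t, y = 4 * t + 2 := ⟨y / 4, by omega⟩
          have h1 : (4 * (n : ℤ) + 1) = (4 * s + 1) ^ 2 + (4 * t + 2) ^ 2 := by
            rw [← hs', ← ht, ← hxy, hn]; push_cast; ring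
          have h2 : (n : ℤ) = 2 * (2 * s ^ 2 + s + 2 * t ^ 2 + 2 * t) + 1 := by linarith
          have := Nat.even_iff.1 hne
          omega
      have hq := quart0 p n hn x y t hxy hx ht (CDE.red p I) hf hxI
      have hsq : ((sg t : ℤ) : R p) * ((sg t : ℤ) : R p) = 1 := by
        have := congrArg (Int.cast : ℤ → R p) (sg_sq t)
        push_cast at this
        exact this
      have hζt : ζ = ((sg t : ℤ) : R p) := by
        apply sq_one_eq hp2
        · rw [hζ2, hne.neg_one_pow]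
          linear_combination -hsq
        · exact IsUnit.of_mul_eq_one _ hsq
        · rw [hζr, hq, red_int]
      refine cong_of a (((sg t : ℤ) : O p) * (2 * (x : O p) - (p : O p) * invI p (2 * x))) ha' ?_ ?_
      · rw [zpow_sg, show y / 4 = t by omega]
        push_cast
        rw [c2, invI_coe p _ h2x]
        push_cast
        rw [div_eq_mul_inv]
      · rw [hab]
        simp only [map_mul, map_sub, map_natCast, map_intCast, map_ofNat]
        rw [← hX2]
        rw [hζt] at hζB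
        rw [hne.neg_one_pow, one_mul] at hA
        rw [← hA]
        linear_combination ((sg t : ℤ) : R p) * hζB - B * hsq
    · intro h8
      have hne : Odd n := Nat.odd_iff.2 (by omega)
      obtain ⟨t, ht⟩ : ∃ t, y = 4 * t + 2 := by
        have hcase : y % 4 = 0 ∨ y % 4 = 2 := by omega
        rcases hcase with h | h
        · exfalso
          obtain ⟨t, ht⟩ : ∃ t, y = 4 * t := ⟨y / 4, by omega⟩
          have h1 : (4 * (n : ℤ) + 1) = (4 * s + 1) ^ 2 + (4 * t) ^ 2 := by
            rw [← hs', ← ht, ← hxy, hn]; push_cast; ring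
          have h2 : (n : ℤ) = 2 * (2 * s ^ 2 + s + 2 * t ^ 2) := by linarith
          have := Nat.odd_iff.1 hne
          omega
        · exact ⟨y / 4, by omega⟩
      have hq := quart2 p n hn x y t hxy hx ht (CDE.red p I) hf hxI
      have hsq : ((sg t : ℤ) : R p) * ((sg t : ℤ) : R p) = 1 := by
        have := congrArg (Int.cast : ℤ → R p) (sg_sq t)
        push_cast at this
        exact this
      have hζt : ζ = I * ((sg t : ℤ) : R p) := by
        apply sq_one_eq hp2
        · rw [hζ2, hne.neg_one_pow]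
          linear_combination (-((sg t : ℤ) : R p) ^ 2) * hI + hsq
        · apply IsUnit.of_mul_eq_one (-(I * ((sg t : ℤ) : R p)))
          linear_combination (-((sg t : ℤ) : R p) ^ 2) * hI + hsq
        · rw [hζr, hq, map_mul, red_int]
      -- the change from `x` to `y`
      have hswap : (p : R p) * (X2 * I) = p * (-Y2) := by
        apply CDE.p_mul_eq
        have hx2r : 2 * (x : ZMod p) * CDE.red p X2 = 1 := by
          have := congrArg (CDE.red p) hX
          rw [map_mul, map_mul, map_ofNat, red_int, map_one] at this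
          exact this
        have hy2r : 2 * (y : ZMod p) * CDE.red p Y2 = 1 := by
          have := congrArg (CDE.red p) hY
          rw [map_mul, map_mul, map_ofNat, red_int, map_one] at this
          exact this
        rw [map_mul, map_neg]
        linear_combination (-(CDE.red p X2 * CDE.red p I)) * hy2r
          - (2 * CDE.red p X2 * CDE.red p Y2 * CDE.red p I) * hxI
          + (2 * CDE.red p X2 * CDE.red p Y2 * (x : ZMod p)) * hf - CDE.red p Y2 * hx2r
      refine cong_of a (((sg t : ℤ) : O p) * (2 * (y : O p) - (p : O p) * invI p (2 * y))) ha' ?_ ?_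
      · rw [zpow_sg, show (y - 2) / 4 = t by omega]
        push_cast
        rw [c2, invI_coe p _ h2y]
        push_cast
        rw [div_eq_mul_inv]
      · rw [hab]
        simp only [map_mul, map_sub, map_natCast, map_intCast, map_ofNat]
        rw [← hY2]
        rw [hζt] at hζB
        rw [hne.neg_one_pow] at hA
        linear_combination (B * ((sg t : ℤ) : R p) ^ 2) * hI - B * hsq
          - (I * ((sg t : ℤ) : R p)) * hζB - (I * ((sg t : ℤ) : R p)) * hA
          + ((sg t : ℤ) : R p) * (2 * I * hxyI - 2 * (y : R p) * hI + hswap)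

/-- **MP_fdcced_nt, Q1 and Q2.** -/
theorem result (p : ℕ) (hp : p.Prime) (hp4 : p % 4 = 1) (x y : ℤ)
    (hxy : (p : ℤ) = x ^ 2 + y ^ 2) (hx : x % 4 = 1) :
    Cong p (∑ k ∈ range p, gb (-1 / 4) k ^ 2 * (-8) ^ k)
      ((-1) ^ ((p - 1) / 4) * (2 * (x : ℚ) - p / (2 * x))) ∧
    (p % 8 = 1 → Cong p (∑ k ∈ range p, gb (-1 / 4) k ^ 2 / (-8) ^ k)
      ((-1) ^ (y / 4) * (2 * (x : ℚ) - p / (2 * x)))) ∧
    (p % 8 = 5 → Cong p (∑ k ∈ range p, gb (-1 / 4) k ^ 2 / (-8) ^ k)
      ((-1) ^ ((y - 2) / 4) * (2 * (y : ℚ) - p / (2 * y)))) :=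
  all p hp hp4 x y hxy hx

end Pool.Agent.Results.MP_fdcced_nt.Full
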